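import Pool.Agent.H5.TT.Stm

/-! Crew TT, part COU: positivity of the Coulomb energy. -/

set_option autoImplicit false
open MeasureTheory H5.TT

namespace H56.TT

theorem gen56 {X P : Type*} [MeasurableSpace X] [MeasurableSpace P] (μ : Measure X)
    (ν : Measure P) [SFinite μ] [SFinite ν] (G : P → X → ENNReal)
    (hG : Measurable (Function.uncurry G))
    (a b : X → ENNReal) (ha : Measurable a) (hb : Measurable b) :
    ∫⁻ x, ∫⁻ y, a x * b y * (∫⁻ p, G p x * G p y ∂ν) ∂μ ∂μ =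
      ∫⁻ p, (∫⁻ x, a x * G p x ∂μ) * (∫⁻ y, b y * G p y ∂μ) ∂ν := by
  have hGp : ∀ p, Measurable (G p) := fun p => hG.comp measurable_prodMk_left
  have hGx : ∀ x, Measurable (fun p => G p x) := fun x => hG.comp measurable_prodMk_right
  have h1 : ∀ x, ∫⁻ y, a x * b y * (∫⁻ p, G p x * G p y ∂ν) ∂μ =
      ∫⁻ p, a x * G p x * (∫⁻ y, b y * G p y ∂μ) ∂ν := by
    intro x
    have h2 : ∀ y, a x * b y * (∫⁻ p, G p x * G p y ∂ν) =
        ∫⁻ p, a x * G p x * (b y * G p y) ∂ν := by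
      intro y
      have hmm : Measurable (fun p => G p x * G p y) := (hGx x).mul (hGx y)
      rw [← lintegral_const_mul _ hmm]
      refine lintegral_congr fun p => ?_
      ring
    simp_rw [h2]
    rw [lintegral_lintegral_swap]
    · refine lintegral_congr fun p => ?_
      have hmm : Measurable (fun y => b y * G p y) := hb.mul (hGp p)
      rw [lintegral_const_mul _ hmm]
    · apply Measurable.aemeasurable
      apply Measurable.mul
      · exact (measurable_const.mul ((hGx x).comp measurable_snd))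
      · exact (hb.comp measurable_fst).mul (hG.comp (measurable_snd.prodMk measurable_fst))
  simp_rw [h1]
  rw [lintegral_lintegral_swap]
  · refine lintegral_congr fun p => ?_
    have hmm : Measurable (fun x => a x * G p x) := ha.mul (hGp p)
    rw [← lintegral_mul_const _ hmm]
  · apply Measurable.aemeasurable
    apply Measurable.mul
    · exact (ha.comp measurable_fst).mul (hG.comp (measurable_snd.prodMk measurable_fst))
    · have h3 : Measurable (fun p => ∫⁻ y, b y * G p y ∂μ) := by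
        apply Measurable.lintegral_prod_right' (f := fun q : P × X => b q.2 * G q.1 q.2)
        exact (hb.comp measurable_snd).mul hG
      exact h3.comp measurable_snd

theorem amgm56 (a b : ENNReal) : 2 * (a * b) ≤ a * a + b * b := by
  by_cases ha : a = ⊤
  · subst ha; simp
  by_cases hb : b = ⊤
  · subst hb; simp
  lift a to NNReal using ha
  lift b to NNReal using hb
  have h : 2 * ((a : ℝ) * b) ≤ a * a + b * b := by nlinarith [sq_nonneg ((a : ℝ) - b)]
  exact_mod_cast h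

theorem pos56 {X P : Type*} [MeasurableSpace X] [MeasurableSpace P] (μ : Measure X)
    (ν : Measure P) [SFinite μ] [SFinite ν] (G : P → X → ENNReal)
    (hG : Measurable (Function.uncurry G))
    (a b : X → ENNReal) (ha : Measurable a) (hb : Measurable b) :
    2 * ∫⁻ x, ∫⁻ y, a x * b y * (∫⁻ p, G p x * G p y ∂ν) ∂μ ∂μ ≤
      (∫⁻ x, ∫⁻ y, a x * a y * (∫⁻ p, G p x * G p y ∂ν) ∂μ ∂μ) +
      ∫⁻ x, ∫⁻ y, b x * b y * (∫⁻ p, G p x * G p y ∂ν) ∂μ ∂μ := by
  rw [gen56 μ ν G hG a b ha hb, gen56 μ ν G hG a a ha ha, gen56 μ ν G hG b b hb hb]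
  have hm : ∀ c : X → ENNReal, Measurable c → Measurable (fun p => ∫⁻ y, c y * G p y ∂μ) := by
    intro c hc
    apply Measurable.lintegral_prod_right' (f := fun q : P × X => c q.2 * G q.1 q.2)
    exact (hc.comp measurable_snd).mul hG
  have hab : Measurable (fun p => (∫⁻ x, a x * G p x ∂μ) * (∫⁻ y, b y * G p y ∂μ)) :=
    (hm a ha).mul (hm b hb)
  have haa : Measurable (fun p => (∫⁻ x, a x * G p x ∂μ) * (∫⁻ y, a y * G p y ∂μ)) :=
    (hm a ha).mul (hm a ha)
  rw [← lintegral_const_mul _ hab, ← lintegral_add_left haa]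
  exact lintegral_mono fun p => amgm56 _ _

/-- the weight -/
noncomputable def cw56 (t : ℝ) : ℝ :=
  (Real.sqrt Real.pi)⁻¹ * t ^ (1 / 2 - 1 : ℝ) * (Real.pi / (4 * t)) ^ (-(3 / 2) : ℝ)

/-- the kernel -/
noncomputable def ker56 (p : ℝ × R3) (x : R3) : ENNReal :=
  ENNReal.ofReal (Real.sqrt (cw56 p.1) * Real.exp (-(2 * p.1) * ‖x - p.2‖ ^ 2))

theorem ker_meas56 : Measurable (Function.uncurry ker56) := by
  unfold Function.uncurry ker56 cw56
  fun_prop

theorem gauss56 (b : ℝ) (hb : 0 < b) (m : R3) (A : ℝ) (hA : 0 ≤ A) :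
    ∫⁻ w : R3, ENNReal.ofReal (A * Real.exp (-b * ‖w - m‖ ^ 2)) =
      ENNReal.ofReal (A * (Real.pi / b) ^ (3 / 2 : ℝ)) := by
  have h1 := GaussianFourier.integral_rexp_neg_mul_sq_norm (V := R3) hb
  have h2 : Integrable (fun w : R3 => Real.exp (-b * ‖w‖ ^ 2)) := by
    by_contra h
    rw [integral_undef h] at h1
    have : 0 < (Real.pi / b) ^ (Module.finrank ℝ R3 / 2 : ℝ) := by positivity
    linarith
  have h3 : Integrable (fun w : R3 => A * Real.exp (-b * ‖w - m‖ ^ 2)) :=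
    (h2.comp_sub_right m).const_mul A
  rw [← ofReal_integral_eq_lintegral_ofReal h3 (Filter.Eventually.of_forall fun w => by
    show 0 ≤ A * Real.exp (-b * ‖w - m‖ ^ 2)
    positivity)]
  congr 1
  rw [integral_const_mul]
  congr 1
  rw [integral_sub_right_eq_self (fun w : R3 => Real.exp (-b * ‖w‖ ^ 2)) m, h1]
  congr 1
  simp

theorem gam56 (r : ℝ) (hr : 0 < r) :
    ∫⁻ t in Set.Ioi (0 : ℝ), ENNReal.ofReal ((Real.sqrt Real.pi)⁻¹ *
      (t ^ (1 / 2 - 1 : ℝ) * Real.exp (-(r ^ 2 * t)))) = ENNReal.ofReal (1 / r) := by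
  have h1 := Real.integral_rpow_mul_exp_neg_mul_Ioi (a := 1 / 2) (r := r ^ 2) (by norm_num)
    (by positivity)
  have hpos : 0 < (1 / r ^ 2) ^ (1 / 2 : ℝ) * Real.Gamma (1 / 2) := by
    have : 0 < Real.Gamma (1 / 2) := Real.Gamma_pos_of_pos (by norm_num)
    positivity
  have h2 : Integrable (fun t : ℝ => t ^ (1 / 2 - 1 : ℝ) * Real.exp (-(r ^ 2 * t)))
      (volume.restrict (Set.Ioi 0)) := by
    by_contra h
    rw [integral_undef h] at h1
    linarith
  have h3 := h2.const_mul (Real.sqrt Real.pi)⁻¹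
  rw [← ofReal_integral_eq_lintegral_ofReal h3]
  · congr 1
    rw [integral_const_mul, h1, Real.Gamma_one_half_eq]
    have h4 : (1 / r ^ 2) ^ (1 / 2 : ℝ) = 1 / r := by
      rw [← Real.sqrt_eq_rpow, Real.sqrt_div (by norm_num), Real.sqrt_one, Real.sqrt_sq hr.le]
    rw [h4]
    have : Real.sqrt Real.pi ≠ 0 := (Real.sqrt_pos.2 Real.pi_pos).ne'
    field_simp
  · filter_upwards [ae_restrict_mem measurableSet_Ioi] with t ht
    have ht' : (0 : ℝ) < t := ht
    show 0 ≤ (Real.sqrt Real.pi)⁻¹ * (t ^ (1 / 2 - 1 : ℝ) * Real.exp (-(r ^ 2 * t)))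
    positivity

theorem kernel56 (x y : R3) (hxy : x ≠ y) :
    ∫⁻ p : ℝ × R3, ker56 p x * ker56 p y ∂((volume.restrict (Set.Ioi (0 : ℝ))).prod volume) =
      ENNReal.ofReal (1 / ‖x - y‖) := by
  have hGx : ∀ x, Measurable (fun p => ker56 p x) :=
    fun x => ker_meas56.comp measurable_prodMk_right
  have hmm : Measurable (fun p => ker56 p x * ker56 p y) := (hGx x).mul (hGx y)
  rw [lintegral_prod _ hmm.aemeasurable, ← gam56 ‖x - y‖ (by
    rw [norm_pos_iff]; exact sub_ne_zero.2 hxy)]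
  apply setLIntegral_congr_fun measurableSet_Ioi
  intro t ht
  have ht' : (0 : ℝ) < t := ht
  have hc : 0 ≤ cw56 t := by unfold cw56; positivity
  have h1 : ∀ w : R3, ker56 (t, w) x * ker56 (t, w) y =
      ENNReal.ofReal (cw56 t * Real.exp (-(‖x - y‖ ^ 2 * t)) *
        Real.exp (-(4 * t) * ‖w - (1 / 2 : ℝ) • (x + y)‖ ^ 2)) := by
    intro w
    unfold ker56
    rw [← ENNReal.ofReal_mul (by positivity)]
    congr 1
    have h2 : ‖x - w‖ ^ 2 + ‖y - w‖ ^ 2 =
        2 * ‖w - (1 / 2 : ℝ) • (x + y)‖ ^ 2 + ‖x - y‖ ^ 2 / 2 := by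
      simp only [← real_inner_self_eq_norm_sq, inner_sub_left, inner_sub_right, inner_smul_left,
        inner_smul_right, inner_add_left, inner_add_right]
      rw [real_inner_comm x w, real_inner_comm y w, real_inner_comm x y]
      simp
      ring
    have h3 : Real.exp (-(2 * t) * ‖x - w‖ ^ 2) * Real.exp (-(2 * t) * ‖y - w‖ ^ 2) =
        Real.exp (-(‖x - y‖ ^ 2 * t)) *
          Real.exp (-(4 * t) * ‖w - (1 / 2 : ℝ) • (x + y)‖ ^ 2) := by
      rw [← Real.exp_add, ← Real.exp_add]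
      congr 1
      have : -(2 * t) * ‖x - w‖ ^ 2 + -(2 * t) * ‖y - w‖ ^ 2 =
          -(2 * t) * (‖x - w‖ ^ 2 + ‖y - w‖ ^ 2) := by ring
      rw [this, h2]
      ring
    calc Real.sqrt (cw56 t) * Real.exp (-(2 * t) * ‖x - w‖ ^ 2) *
          (Real.sqrt (cw56 t) * Real.exp (-(2 * t) * ‖y - w‖ ^ 2))
        = (Real.sqrt (cw56 t) * Real.sqrt (cw56 t)) *
          (Real.exp (-(2 * t) * ‖x - w‖ ^ 2) * Real.exp (-(2 * t) * ‖y - w‖ ^ 2)) := by ring
      _ = _ := by rw [Real.mul_self_sqrt hc, h3, mul_assoc]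
  show ∫⁻ w : R3, ker56 (t, w) x * ker56 (t, w) y = _
  simp_rw [h1]
  rw [gauss56 (4 * t) (by positivity) _ _ (by positivity)]
  congr 1
  unfold cw56
  have h4 : (Real.pi / (4 * t)) ^ (-(3 / 2) : ℝ) * (Real.pi / (4 * t)) ^ (3 / 2 : ℝ) = 1 := by
    rw [← Real.rpow_add (by positivity)]
    norm_num
  calc (Real.sqrt Real.pi)⁻¹ * t ^ (1 / 2 - 1 : ℝ) * (Real.pi / (4 * t)) ^ (-(3 / 2) : ℝ) *
        Real.exp (-(‖x - y‖ ^ 2 * t)) * (Real.pi / (4 * t)) ^ (3 / 2 : ℝ)
      = (Real.sqrt Real.pi)⁻¹ * (t ^ (1 / 2 - 1 : ℝ) * Real.exp (-(‖x - y‖ ^ 2 * t))) *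
        ((Real.pi / (4 * t)) ^ (-(3 / 2) : ℝ) * (Real.pi / (4 * t)) ^ (3 / 2 : ℝ)) := by ring
    _ = _ := by rw [h4, mul_one]

theorem dd56 (hDFI : S_DFI) (lam mu : ℝ) (σ τ : R3 → ℝ) (hσ : Adm lam σ) (hτ : Adm mu τ) :
    ENNReal.ofReal (dd σ τ) =
      ∫⁻ x, ∫⁻ y, ENNReal.ofReal (σ x) * ENNReal.ofReal (τ y) *
        (∫⁻ p, ker56 p x * ker56 p y ∂((volume.restrict (Set.Ioi (0 : ℝ))).prod volume)) := by
  unfold dd
  rw [ofReal_integral_eq_lintegral_ofReal (hDFI lam mu σ τ hσ hτ)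
    (Filter.Eventually.of_forall fun p => by
      show 0 ≤ σ p.1 * τ p.2 / ‖p.1 - p.2‖
      have h1 := hσ.2.1 p.1
      have h2 := hτ.2.1 p.2
      positivity)]
  rw [Measure.volume_eq_prod, lintegral_prod]
  · refine lintegral_congr fun x => ?_
    apply lintegral_congr_ae
    have h1 : ∀ᵐ y : R3, y ≠ x := by
      rw [ae_iff]
      simp
    filter_upwards [h1] with y hy
    show ENNReal.ofReal (σ x * τ y / ‖x - y‖) = _
    rw [kernel56 x y hy.symm, ← ENNReal.ofReal_mul (hσ.2.1 x),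
      ← ENNReal.ofReal_mul (mul_nonneg (hσ.2.1 x) (hτ.2.1 y)), mul_one_div]
  · apply Measurable.aemeasurable
    apply ENNReal.measurable_ofReal.comp
    apply Measurable.div
    · exact (hσ.1.comp measurable_fst).mul (hτ.1.comp measurable_snd)
    · exact (measurable_fst.sub measurable_snd).norm

theorem t_COU (hDFI : S_DFI) : S_COU := by
  intro lam mu σ τ hσ hτ
  have h0 : ∀ (σ τ : R3 → ℝ), (∀ x, 0 ≤ σ x) → (∀ x, 0 ≤ τ x) → 0 ≤ dd σ τ := by
    intro σ τ h1 h2
    unfold dd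
    apply integral_nonneg
    intro p
    show 0 ≤ σ p.1 * τ p.2 / ‖p.1 - p.2‖
    have h3 := h1 p.1
    have h4 := h2 p.2
    positivity
  have hss := h0 σ σ hσ.2.1 hσ.2.1
  have htt := h0 τ τ hτ.2.1 hτ.2.1
  have h1 : ENNReal.ofReal (2 * dd σ τ) ≤ ENNReal.ofReal (dd σ σ + dd τ τ) := by
    rw [ENNReal.ofReal_add hss htt, ENNReal.ofReal_mul (by norm_num : (0 : ℝ) ≤ 2),
      dd56 hDFI lam mu σ τ hσ hτ, dd56 hDFI lam lam σ σ hσ hσ, dd56 hDFI mu mu τ τ hτ hτ]
    have h2 : ENNReal.ofReal 2 = 2 := by simp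
    rw [h2]
    exact pos56 volume ((volume.restrict (Set.Ioi (0 : ℝ))).prod volume) ker56 ker_meas56
      (fun x => ENNReal.ofReal (σ x)) (fun x => ENNReal.ofReal (τ x))
      (ENNReal.measurable_ofReal.comp hσ.1) (ENNReal.measurable_ofReal.comp hτ.1)
  exact (ENNReal.ofReal_le_ofReal_iff (by linarith)).1 h1

end H56.TT
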